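import Pool.Agent.W973.IP.FDefs

/-!
# Project IP, part HP: properties of the polynomial `hP`
-/

set_option autoImplicit false

namespace Pool.Agent.W853.IP

open Pool.Agent.W973.IP Pool.Agent.NPC Pool.Agent.NPC.ER Pool.Agent.NPC.H612 MvPolynomial

theorem deg_mixP (E : List ℕ) (S : List ER.Con) (i : ℕ) : (mixP E S i).totalDegree ≤ 1 := by
  unfold mixP
  split_ifs with h1 h2
  · exact (totalDegree_X _).le
  · exact (totalDegree_X _).le
  · simp

theorem deg_add' {σ : Type} {p q : MvPolynomial σ ℚ} {d : ℕ} (hp : p.totalDegree ≤ d)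
    (hq : q.totalDegree ≤ d) : (p + q).totalDegree ≤ d :=
  (totalDegree_add p q).trans (max_le hp hq)

theorem deg_sub' {σ : Type} {p q : MvPolynomial σ ℚ} {d : ℕ} (hp : p.totalDegree ≤ d)
    (hq : q.totalDegree ≤ d) : (p - q).totalDegree ≤ d :=
  (totalDegree_sub p q).trans (max_le hp hq)

theorem deg_conPo (E : List ℕ) (S : List ER.Con) (c : ER.Con) :
    (conPo E S c).totalDegree ≤ 2 := by
  cases c with
  | one i =>
    refine deg_sub' ((deg_mixP E S i).trans (by norm_num)) ?_
    simp
  | add i j k =>
    exact deg_sub' (deg_add' ((deg_mixP E S i).trans (by norm_num))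
      ((deg_mixP E S j).trans (by norm_num))) ((deg_mixP E S k).trans (by norm_num))
  | mul i j k =>
    refine deg_sub' ?_ ((deg_mixP E S k).trans (by norm_num))
    refine (totalDegree_mul _ _).trans ?_
    have h1 := deg_mixP E S i
    have h2 := deg_mixP E S j
    omega

theorem deg_list (E : List ℕ) (S L : List ER.Con) :
    ((L.map fun c => conPo E S c ^ 2).sum).totalDegree ≤ 4 := by
  induction L with
  | nil => simp
  | cons c L ih =>
    rw [List.map_cons, List.sum_cons]
    refine deg_add' ?_ ih
    refine (totalDegree_pow _ _).trans ?_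
    have := deg_conPo E S c
    omega

theorem hv_mixP (E : List ℕ) (S : List ER.Con) (i : ℕ) (u w : Vec (nn S)) :
    hv (mixP E S i) u w = if isE E i = true then
    xt u ((varsOf S).idxOf i) else xt w ((varsOf S).idxOf i) := by
  unfold mixP hv xt
  split_ifs <;> simp

theorem hv_conPo (E : List ℕ) (S : List ER.Con) (c : ER.Con) (u w : Vec (nn S)) :
    hv (conPo E S c) u w = 0 ↔ c.Holds (fun i => if isE E i = true then
    xt u ((varsOf S).idxOf i) else xt w ((varsOf S).idxOf i)) := by
  have hm : ∀ i, aeval (Sum.elim u w) (mixP E S i) = if isE E i = true then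
    xt u ((varsOf S).idxOf i) else xt w ((varsOf S).idxOf i) := fun i => hv_mixP E S i u w
  cases c with
  | one i =>
    simp only [hv, conPo, map_sub, map_one, ER.Con.Holds]
    rw [hm, sub_eq_zero]
  | add i j k =>
    simp only [hv, conPo, map_sub, map_add, ER.Con.Holds]
    rw [hm, hm, hm, sub_eq_zero]
  | mul i j k =>
    simp only [hv, conPo, map_sub, map_mul, ER.Con.Holds]
    rw [hm, hm, hm, sub_eq_zero]

theorem hv_list (E : List ℕ) (S L : List ER.Con) (u w : Vec (nn S)) :
    0 ≤ hv ((L.map fun c => conPo E S c ^ 2).sum) u w ∧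
    (hv ((L.map fun c => conPo E S c ^ 2).sum) u w = 0 ↔ ∀ c ∈ L, hv (conPo E S c) u w = 0) := by
  induction L with
  | nil => simp [hv]
  | cons c L ih =>
    obtain ⟨ih1, ih2⟩ := ih
    have h : hv (((c :: L).map fun c => conPo E S c ^ 2).sum) u w =
        hv (conPo E S c) u w ^ 2 + hv ((L.map fun c => conPo E S c ^ 2).sum) u w := by
      simp [hv]
    rw [h]
    have h2 := sq_nonneg (hv (conPo E S c) u w)
    refine ⟨by positivity, ?_⟩
    constructor
    · intro h3
      have h4 : hv (conPo E S c) u w ^ 2 = 0 := by linarith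
      have h5 : hv ((L.map fun c => conPo E S c ^ 2).sum) u w = 0 := by linarith
      intro c' hc'
      rcases List.mem_cons.mp hc' with h6 | h6
      · rw [h6]
        exact pow_eq_zero_iff (by norm_num) |>.mp h4
      · exact ih2.mp h5 c' h6
    · intro h3
      rw [h3 c List.mem_cons_self, ih2.mpr fun c' hc' => h3 c' (List.mem_cons_of_mem _ hc')]
      norm_num

theorem hpT : S_HP := by
  intro E S
  refine ⟨deg_list E S S, fun u w => (hv_list E S S u w).1, fun u w => ?_⟩
  have h := (hv_list E S S u w).2
  unfold hP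
  rw [h]
  unfold SysHolds
  exact forall₂_congr fun c _ => hv_conPo E S c u w

end Pool.Agent.W853.IP
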